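import Pool.Agent.W648.UN.Stm2

/-! Subtask UN-CTS (owner helper648): continuity along the line. -/

set_option autoImplicit false

open MeasureTheory Set Filter Topology
open scoped ContDiff

namespace Pool.Agent.W216.UN.Cts

open Pool.Agent.W648.UN

/-! ### the weight -/

theorem wint : IntegrableOn (fun s : ℝ => (1 - s) ^ (-(3 / 4) : ℝ)) (Ioo (0 : ℝ) 1) ∧
    ∫ s in Ioo (0 : ℝ) 1, (1 - s) ^ (-(3 / 4) : ℝ) = 4 := by
  have h1 : IntervalIntegrable (fun s : ℝ => s ^ (-(3 / 4) : ℝ)) volume 0 1 :=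
    intervalIntegral.intervalIntegrable_rpow' (by norm_num)
  have h2 : IntervalIntegrable (fun s : ℝ => (1 - s) ^ (-(3 / 4) : ℝ)) volume 0 1 := by
    have := h1.comp_sub_left 1
    simp only [sub_zero, sub_self] at this
    exact this.symm
  have h3 : ∫ s in (0 : ℝ)..1, (1 - s) ^ (-(3 / 4) : ℝ) = 4 := by
    rw [intervalIntegral.integral_comp_sub_left (fun s : ℝ => s ^ (-(3 / 4) : ℝ)) 1]
    rw [sub_self, sub_zero, integral_rpow (Or.inl (by norm_num))]
    rw [Real.one_rpow, Real.zero_rpow (by norm_num)]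
    norm_num
  rw [intervalIntegrable_iff_integrableOn_Ioo_of_le zero_le_one] at h2
  refine ⟨h2, ?_⟩
  rw [intervalIntegral.integral_of_le zero_le_one, integral_Ioc_eq_integral_Ioo] at h3
  exact h3

/-- continuous bounded functions -/
theorem nb_of_bound {G : ℝ → ℂ} {c : ℝ} (hG : ContinuousOn G (Ioo (0 : ℝ) 1))
    (hc : ∀ s ∈ Ioo (0 : ℝ) 1, ‖G s‖ ≤ c) : NB G (4 * c) := by
  have hm : AEStronglyMeasurable G (volume.restrict (Ioo (0 : ℝ) 1)) :=
    hG.aestronglyMeasurable measurableSet_Ioo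
  have hw : ∀ s ∈ Ioo (0 : ℝ) 1, 0 ≤ (1 - s) ^ (-(3 / 4) : ℝ) := fun s hs =>
    Real.rpow_nonneg (by linarith [hs.2]) _
  have hi : IntegrableOn (fun s : ℝ => c * (1 - s) ^ (-(3 / 4) : ℝ)) (Ioo (0 : ℝ) 1) :=
    wint.1.const_mul c
  have hi2 : IntegrableOn (fun s : ℝ => ‖G s‖ * (1 - s) ^ (-(3 / 4) : ℝ)) (Ioo (0 : ℝ) 1) := by
    refine Integrable.mono' hi (hm.norm.mul wint.1.aestronglyMeasurable) ?_
    rw [ae_restrict_iff' measurableSet_Ioo]
    refine Eventually.of_forall (fun s hs => ?_)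
    rw [Real.norm_eq_abs, abs_of_nonneg (mul_nonneg (norm_nonneg _) (hw s hs))]
    exact mul_le_mul_of_nonneg_right (hc s hs) (hw s hs)
  refine ⟨hm, hi2, ?_⟩
  calc ∫ s in Ioo (0 : ℝ) 1, ‖G s‖ * (1 - s) ^ (-(3 / 4) : ℝ)
      ≤ ∫ s in Ioo (0 : ℝ) 1, c * (1 - s) ^ (-(3 / 4) : ℝ) :=
        setIntegral_mono_on hi2 hi measurableSet_Ioo
          (fun s hs => mul_le_mul_of_nonneg_right (hc s hs) (hw s hs))
    _ = 4 * c := by
        rw [integral_const_mul, wint.2]
        ring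

theorem nb_mono {A : Type} [NormedCommRing A] {H : ℝ → A} {a b : ℝ} (h : NB H a) (hab : a ≤ b) :
    NB H b := ⟨h.1, h.2.1, h.2.2.trans hab⟩

theorem hh_cont {h : ℝ → ℝ} (hc : Continuous h) (t : ℝ) :
    ContinuousOn (HH h t) (Ioo (0 : ℝ) 1) := by
  unfold HH
  apply Complex.continuous_ofReal.comp_continuousOn
  apply hc.comp_continuousOn
  apply continuousOn_const.add
  exact Real.continuousOn_log.mono (fun x hx => ne_of_gt hx.1)

theorem hh_nb {h : ℝ → ℝ} (hh : okh h) (t : ℝ) : NB (HH h t) (1 / 50) := by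
  refine nb_mono (nb_of_bound (c := 1 / 200) (hh_cont hh.1 t) ?_) (by norm_num)
  intro s _
  rw [HH, Complex.norm_real, Real.norm_eq_abs]
  exact hh.2.2 _

/-- uniform continuity in `t` -/
theorem unif {h : ℝ → ℝ} (hh : okh h) (t0 : ℝ) (ε : ℝ) (hε : 0 < ε) :
    ∀ᶠ t in 𝓝 t0, ∀ x ∈ Ioo (0 : ℝ) 1, ‖HH h t x - HH h t0 x‖ ≤ ε := by
  have hK : IsCompact (Icc (-1 : ℝ) (t0 + 1)) := isCompact_Icc
  have huc := hK.uniformContinuousOn_of_continuous hh.1.continuousOn
  rw [Metric.uniformContinuousOn_iff] at huc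
  obtain ⟨δ, hδ, hd⟩ := huc ε hε
  have hm : 0 < min δ 1 := lt_min hδ one_pos
  filter_upwards [Metric.ball_mem_nhds t0 hm] with t ht x hx
  rw [Metric.mem_ball, Real.dist_eq] at ht
  have h1 := lt_of_lt_of_le ht (min_le_left _ _)
  have h2 := lt_of_lt_of_le ht (min_le_right _ _)
  have hlog : Real.log x < 0 := Real.log_neg hx.1 hx.2
  have h2' := abs_lt.1 h2
  rw [HH, HH, ← Complex.ofReal_sub, Complex.norm_real, Real.norm_eq_abs]
  by_cases hcase : -1 ≤ t + Real.log x ∧ -1 ≤ t0 + Real.log x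
  · have h3 := hd (t + Real.log x) ⟨hcase.1, by linarith⟩ (t0 + Real.log x)
      ⟨hcase.2, by linarith⟩ (by
        rw [Real.dist_eq]
        have : t + Real.log x - (t0 + Real.log x) = t - t0 := by ring
        rw [this]
        exact h1)
    rw [Real.dist_eq] at h3
    exact h3.le
  · have h4 : t + Real.log x ≤ 0 ∧ t0 + Real.log x ≤ 0 := by
      rw [not_and_or, not_le, not_le] at hcase
      rcases hcase with hc | hc
      · exact ⟨by linarith, by linarith⟩
      · exact ⟨by linarith, by linarith⟩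
    rw [hh.2.1 _ h4.1, hh.2.1 _ h4.2, sub_self, abs_zero]
    exact hε.le

theorem unif_nb {h : ℝ → ℝ} (hh : okh h) (t0 : ℝ) (ε : ℝ) (hε : 0 < ε) :
    ∀ᶠ t in 𝓝 t0, NB (fun x => HH h t x - HH h t0 x) ε := by
  filter_upwards [unif hh t0 (ε / 4) (by positivity)] with t ht
  have := nb_of_bound (c := ε / 4) ((hh_cont hh.1 t).sub (hh_cont hh.1 t0)) ht
  refine nb_mono this ?_
  linarith

/-- joint continuity -/
theorem joint {S : Set ℝ} (f : ℝ → ℝ → ℂ) (w : ℝ → ℝ) (hw : ContinuousOn w S)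
    (h1 : ∀ t0, ∀ ε > 0, ∀ᶠ t in 𝓝 t0, ∀ b ∈ S, ‖f t b - f t0 b‖ ≤ w b * ε)
    (h2 : ∀ t0, ContinuousOn (f t0) S) :
    ContinuousOn (fun z : ℝ × ℝ => f z.1 z.2) (univ ×ˢ S) := by
  rintro ⟨t0, b0⟩ ⟨-, hb0⟩
  simp only at hb0
  have hsnd : Tendsto (fun z : ℝ × ℝ => z.2) (𝓝[univ ×ˢ S] (t0, b0)) (𝓝[S] b0) := by
    apply tendsto_nhdsWithin_of_tendsto_nhds_of_eventually_within
    · exact (continuous_snd.tendsto (t0, b0)).mono_left nhdsWithin_le_nhds
    · filter_upwards [self_mem_nhdsWithin] with z hz using hz.2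
  have hfst : Tendsto (fun z : ℝ × ℝ => z.1) (𝓝[univ ×ˢ S] (t0, b0)) (𝓝 t0) :=
    (continuous_fst.tendsto (t0, b0)).mono_left nhdsWithin_le_nhds
  have e2 : Tendsto (fun z : ℝ × ℝ => f t0 z.2) (𝓝[univ ×ˢ S] (t0, b0)) (𝓝 (f t0 b0)) :=
    (h2 t0 b0 hb0).tendsto.comp hsnd
  have e1 : Tendsto (fun z : ℝ × ℝ => f z.1 z.2 - f t0 z.2) (𝓝[univ ×ˢ S] (t0, b0)) (𝓝 0) := by
    rw [Metric.tendsto_nhds]
    intro ε hε
    set W : ℝ := |w b0| + 1 with hW
    have hW0 : 0 < W := by positivity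
    have hw1 : ∀ᶠ z in 𝓝[univ ×ˢ S] (t0, b0), w z.2 < W := by
      have : Tendsto (fun z : ℝ × ℝ => w z.2) (𝓝[univ ×ˢ S] (t0, b0)) (𝓝 (w b0)) :=
        (hw b0 hb0).tendsto.comp hsnd
      exact this.eventually (gt_mem_nhds (by
        have := le_abs_self (w b0)
        linarith))
    have h3 := hfst.eventually (h1 t0 (ε / (2 * W)) (by positivity))
    filter_upwards [hw1, h3, self_mem_nhdsWithin] with z hz1 hz2 hz3
    rw [dist_zero_right]
    have h4 := hz2 z.2 hz3.2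
    calc ‖f z.1 z.2 - f t0 z.2‖ ≤ w z.2 * (ε / (2 * W)) := h4
      _ ≤ W * (ε / (2 * W)) := mul_le_mul_of_nonneg_right hz1.le (by positivity)
      _ = ε / 2 := by field_simp
      _ < ε := by linarith
  have e3 := e1.add e2
  rw [zero_add] at e3
  refine (e3.congr (fun z => ?_))
  ring

theorem om_real {b : ℝ} (hb : 0 ≤ b) : (b : ℂ) ∈ Om := by
  simp only [Om, mem_setOf_eq, Complex.ofReal_im, Complex.ofReal_re, abs_zero]
  exact hb

theorem om0_real {b : ℝ} (hb : 0 < b) : (b : ℂ) ∈ Om0 := by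
  simp only [Om0, mem_setOf_eq, Complex.ofReal_im, Complex.ofReal_re, abs_zero]
  exact hb

theorem om0_sub {z : ℂ} (hz : z ∈ Om0) : z ∈ Om := by
  simp only [Om, Om0, mem_setOf_eq] at *
  exact hz.le

theorem om0_open : IsOpen Om0 := by
  unfold Om0
  exact isOpen_lt (continuous_abs.comp Complex.continuous_im) Complex.continuous_re

/-- continuity in `b` for a fixed profile -/
theorem cont_b (hH : S_HB) (hol : S_HOL) {h : ℝ → ℝ} (hh : okh h) (t : ℝ) :
    ContinuousOn (fun b : ℝ => Ups (HH h t) (b : ℂ)) (Ici 0) ∧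
    ContinuousOn (fun b : ℝ => Tau (HH h t) (b : ℂ)) (Ici 0) := by
  obtain ⟨C, hC, hHB⟩ := hH
  have hnb := nb_mono (hh_nb hh t) (by norm_num : (1 / 50 : ℝ) ≤ 1 / 20)
  have hd := hol ℂ Om0 (fun _ => HH h t) (fun _ => 1 / 200) (fun z => z) om0_open
    (fun z hz => om0_sub hz) differentiableOn_id
    (fun z _ => (hh_nb hh t).1) (fun s _ => differentiableOn_const _)
    (fun z _ s _ => by
      rw [HH, Complex.norm_real, Real.norm_eq_abs]
      exact hh.2.2 _)
    (wint.1.const_mul _) (by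
      rw [integral_const_mul, wint.2]
      norm_num)
  have hz : Tendsto (fun b : ℝ => C * ‖(b : ℂ)‖ ^ (1 / 4 : ℝ)) (𝓝[Ici 0] 0) (𝓝 0) := by
    have h1 : Continuous (fun b : ℝ => C * ‖(b : ℂ)‖ ^ (1 / 4 : ℝ)) := by
      apply continuous_const.mul
      exact (continuous_norm.comp Complex.continuous_ofReal).rpow_const
        (fun _ => Or.inr (by norm_num))
    have h2 := h1.tendsto 0
    rw [Complex.ofReal_zero, norm_zero, Real.zero_rpow (by norm_num), mul_zero] at h2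
    exact h2.mono_left nhdsWithin_le_nhds
  constructor
  · intro b hb
    rcases (mem_Ici.1 hb).eq_or_lt with h0 | h0
    · subst h0
      rw [ContinuousWithinAt, tendsto_iff_norm_sub_tendsto_zero]
      refine squeeze_zero' (Eventually.of_forall fun _ => norm_nonneg _) ?_ hz
      filter_upwards [self_mem_nhdsWithin] with b hb
      rw [Complex.ofReal_zero]
      exact (hHB ℂ (HH h t) (b : ℂ) hnb (om_real hb)).1
    · have h1 := (hd.1.differentiableAt (om0_open.mem_nhds (om0_real h0))).continuousAt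
      exact (ContinuousAt.comp (f := fun b : ℝ => (b : ℂ)) (x := b) h1
        Complex.continuous_ofReal.continuousAt).continuousWithinAt
  · intro b hb
    rcases (mem_Ici.1 hb).eq_or_lt with h0 | h0
    · subst h0
      rw [ContinuousWithinAt, tendsto_iff_norm_sub_tendsto_zero]
      refine squeeze_zero' (Eventually.of_forall fun _ => norm_nonneg _) ?_ hz
      filter_upwards [self_mem_nhdsWithin] with b hb
      rw [Complex.ofReal_zero]
      exact (hHB ℂ (HH h t) (b : ℂ) hnb (om_real hb)).2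
    · have h1 := (hd.2.differentiableAt (om0_open.mem_nhds (om0_real h0))).continuousAt
      exact (ContinuousAt.comp (f := fun b : ℝ => (b : ℂ)) (x := b) h1
        Complex.continuous_ofReal.continuousAt).continuousWithinAt

theorem cont_tb (hH : S_HB) (hol : S_HOL) (hL : S_LIP) {h : ℝ → ℝ} (hh : okh h) :
    ContinuousOn (fun z : ℝ × ℝ => Ups (HH h z.1) ((z.2 : ℝ) : ℂ)) (univ ×ˢ Ici (0 : ℝ)) ∧
    ContinuousOn (fun z : ℝ × ℝ => Tau (HH h z.1) ((z.2 : ℝ) : ℂ)) (univ ×ˢ Ici (0 : ℝ)) := by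
  obtain ⟨C, hC, hLip⟩ := hL
  have hnb : ∀ t, NB (HH h t) (1 / 40) := fun t => nb_mono (hh_nb hh t) (by norm_num)
  constructor
  · apply joint (fun t b => Ups (HH h t) (b : ℂ)) (fun _ => C) continuousOn_const
    · intro t0 ε hε
      filter_upwards [unif_nb hh t0 ε hε] with t ht b hb
      exact (hLip ℂ (HH h t) (HH h t0) ε (b : ℂ) (hnb t) (hnb t0) ht (om_real hb)).1
    · exact fun t0 => (cont_b hH hol hh t0).1
  · apply joint (fun t b => Tau (HH h t) (b : ℂ)) (fun _ => C) continuousOn_const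
    · intro t0 ε hε
      filter_upwards [unif_nb hh t0 ε hε] with t ht b hb
      exact (hLip ℂ (HH h t) (HH h t0) ε (b : ℂ) (hnb t) (hnb t0) ht (om_real hb)).2.1
    · exact fun t0 => (cont_b hH hol hh t0).2

theorem okh_neg {h : ℝ → ℝ} (hh : okh h) : okh (fun t => -h t) :=
  ⟨hh.1.neg, fun t ht => by simp [hh.2.1 t ht], fun t => by rw [abs_neg]; exact hh.2.2 t⟩

theorem hh_neg (h : ℝ → ℝ) (t : ℝ) : (fun s => - HH h t s) = HH (fun t => -h t) t := by
  funext s
  simp [HH]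

theorem th (hH : S_HB) (hol : S_HOL) (hL : S_LIP) (hV : S_VPP) : S_CTS := by
  intro h hh
  have h1 := cont_tb hH hol hL hh
  have h2 := cont_tb hH hol hL (okh_neg hh)
  refine ⟨hh_nb hh, ?_, ?_, h1.1, h1.2, ?_⟩
  · have hm : Continuous (fun t : ℝ => ((t, (0 : ℝ)) : ℝ × ℝ)) := by fun_prop
    have e1 : Continuous (fun t => Tau (HH h t) 0) := by
      have h3 := h1.2.comp_continuous hm (fun t => ⟨mem_univ _, by simp⟩)
      refine h3.congr (fun t => ?_)
      show Tau (HH h t) ((0 : ℝ) : ℂ) = _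
      rw [Complex.ofReal_zero]
    have e2 : Continuous (fun t => Tau (HH (fun t => -h t) t) 0) := by
      have h3 := h2.2.comp_continuous hm (fun t => ⟨mem_univ _, by simp⟩)
      refine h3.congr (fun t => ?_)
      show Tau (HH (fun t => -h t) t) ((0 : ℝ) : ℂ) = _
      rw [Complex.ofReal_zero]
    unfold TT
    simp only [hh_neg]
    exact e1.add e2
  · unfold lam
    simp only [hh_neg]
    exact h1.1.sub h2.1
  · obtain ⟨C, hC, hVV⟩ := hV
    have hnb : ∀ t, NB (HH h t) (1 / 40) := fun t => nb_mono (hh_nb hh t) (by norm_num)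
    apply joint (fun t u => VPP (HH h t) u)
      (fun u => C * u ^ (-(3 / 4) : ℝ) * Real.exp (5 * u))
    · apply ContinuousOn.mul
      · apply continuousOn_const.mul
        exact continuousOn_id.rpow_const (fun x hx => Or.inl (ne_of_gt hx))
      · fun_prop
    · intro t0 ε hε
      filter_upwards [unif_nb hh t0 ε hε] with t ht u hu
      exact (hVV ℂ (HH h t) (hnb t)).2.2.2.2.2 (HH h t0) ε (hnb t0) ht u hu
    · exact fun t0 => (hVV ℂ (HH h t0) (hnb t0)).2.1

end Pool.Agent.W216.UN.Cts
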