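import Pool.Agent.W648.UN.Stm2
import Pool.Agent.W585.Flow

/-! Subtask UN-FLOW (owner helper648): smooth family of solutions. -/

set_option autoImplicit false

open MeasureTheory Set Filter Topology
open scoped ContDiff

namespace Pool.Agent.W216.UN.Flow

open Pool.Agent.W648.UN

/-- the vector field on `ℂ` -/
noncomputable def Y (M : ℝ → ℝ) (z : ℂ × ℝ) : ℂ :=
  ⟨z.1.im, -z.1.re - (M z.1.im - M 0)⟩

theorem Y_eq (M : ℝ → ℝ) (z : ℂ × ℝ) :
    Y M z = ((z.1.im : ℝ) : ℂ) + ((-z.1.re - (M z.1.im - M 0) : ℝ) : ℂ) * Complex.I := by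
  apply Complex.ext
  · simp [Y]
  · simp [Y]

theorem th : S_FLOW := by
  intro M hM hM'
  have hd : Differentiable ℝ M := hM.differentiable (by simp)
  have hre : ContDiff ℝ ∞ (fun z : ℂ × ℝ => z.1.re) :=
    Complex.reCLM.contDiff.comp contDiff_fst
  have him : ContDiff ℝ ∞ (fun z : ℂ × ℝ => z.1.im) :=
    Complex.imCLM.contDiff.comp contDiff_fst
  have hof : ContDiff ℝ ∞ (fun x : ℝ => (x : ℂ)) := Complex.ofRealCLM.contDiff
  have hY : ContDiff ℝ ∞ (Y M) := by
    have e : Y M = fun z : ℂ × ℝ =>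
        ((z.1.im : ℝ) : ℂ) + ((-z.1.re - (M z.1.im - M 0) : ℝ) : ℂ) * Complex.I := by
      funext z
      exact Y_eq M z
    rw [e]
    have h1 : ContDiff ℝ ∞ (fun z : ℂ × ℝ => -z.1.re - (M z.1.im - M 0)) :=
      hre.neg.sub ((hM.comp him).sub contDiff_const)
    exact (hof.comp him).add ((hof.comp h1).mul contDiff_const)
  have hN : ∀ v : ℝ, |M v - M 0| ≤ 1 / 200 * |v| := by
    intro v
    have h := convex_univ.norm_image_sub_le_of_norm_deriv_le (𝕜 := ℝ) (s := (univ : Set ℝ))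
      (f := M) (C := 1 / 200) (x := 0) (y := v)
      (fun x _ => hd x) (fun x _ => by rw [Real.norm_eq_abs]; exact hM' x)
      (mem_univ _) (mem_univ _)
    simpa using h
  have hb : ∀ (x : ℂ) (s : ℝ), |inner ℝ x (Y M (x, s))| ≤ 1 / 200 * ‖x‖ ^ 2 := by
    intro x s
    have h1 : inner ℝ x (Y M (x, s)) = -(x.im * (M x.im - M 0)) := by
      rw [Complex.inner]
      simp [Y, Complex.mul_re]
      ring
    rw [h1, abs_neg, abs_mul]
    have h2 := hN x.im
    have h3 := Complex.abs_im_le_norm x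
    have h4 := abs_nonneg x.im
    calc |x.im| * |M x.im - M 0| ≤ |x.im| * (1 / 200 * |x.im|) :=
          mul_le_mul_of_nonneg_left h2 h4
      _ = 1 / 200 * |x.im| ^ 2 := by ring
      _ ≤ 1 / 200 * ‖x‖ ^ 2 := by
          apply mul_le_mul_of_nonneg_left _ (by norm_num)
          exact pow_le_pow_left₀ h4 h3 2
  obtain ⟨Q, hQs, hQ0, hQd, -⟩ := Pool.Agent.W585.exists_td_flow (E := ℂ) hY
    (by norm_num : (0 : ℝ) ≤ 1 / 200) hb
  set st : ℝ → ℂ := fun R => ((-M R + M 0 : ℝ) : ℂ) + ((R : ℝ) : ℂ) * Complex.I with hst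
  have hstc : ContDiff ℝ ∞ st := by
    have h1 : ContDiff ℝ ∞ (fun R : ℝ => -M R + M 0) := hM.neg.add contDiff_const
    exact (hof.comp h1).add (hof.mul contDiff_const)
  have hcomb : ContDiff ℝ ∞ (fun z : ℝ × ℝ => Q (st z.1) 0 z.2) := by
    have h1 : ContDiff ℝ ∞ (fun z : ℝ × ℝ => (((st z.1, (0 : ℝ)) : ℂ × ℝ), z.2)) :=
      ((hstc.comp contDiff_fst).prodMk contDiff_const).prodMk contDiff_snd
    exact hQs.comp h1
  refine ⟨fun R t => (Q (st R) 0 t).re - M 0, fun R t => (Q (st R) 0 t).im, ?_, ?_, ?_, ?_, ?_, ?_⟩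
  · exact (Complex.reCLM.contDiff.comp hcomb).sub contDiff_const
  · exact Complex.imCLM.contDiff.comp hcomb
  · intro R t
    have h1 := Complex.reCLM.hasFDerivAt.comp_hasDerivAt t (hQd (st R) 0 t)
    have h2 : HasDerivAt (fun t => (Q (st R) 0 t).re) ((Q (st R) 0 t).im) t := h1
    exact h2.sub_const _
  · intro R t
    have h1 := Complex.imCLM.hasFDerivAt.comp_hasDerivAt t (hQd (st R) 0 t)
    have h2 : HasDerivAt (fun t => (Q (st R) 0 t).im)
      (-(Q (st R) 0 t).re - (M (Q (st R) 0 t).im - M 0)) t := h1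
    refine h2.congr_deriv ?_
    ring
  · intro R
    simp only [hQ0, hst]
    simp
  · intro R
    simp only [hQ0, hst]
    simp

end Pool.Agent.W216.UN.Flow
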