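import Pool.Agent.W648.UN.Stm2

/-! Subtask UN-SA2 (owner helper648): choice of weights, pair of algebras. -/

set_option autoImplicit false

open MeasureTheory Set Filter Topology
open scoped ContDiff

namespace Pool.Agent.W216.UN.SA2

open Pool.Agent.W648.UN

/-- weights -/
noncomputable def wt (c : ℕ → ℝ) (k : ℕ) : ℝ := Real.exp (-((k : ℝ) * c k))

theorem wt_zero (c : ℕ → ℝ) : wt c 0 = 1 := by simp [wt]

theorem wt_pos (c : ℕ → ℝ) (k : ℕ) : 0 < wt c k := Real.exp_pos _

theorem wt_mul {c : ℕ → ℝ} (hc : Monotone c) (j k : ℕ) : wt c (j + k) ≤ wt c j * wt c k := by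
  unfold wt
  rw [← Real.exp_add]
  apply Real.exp_le_exp.2
  push_cast
  have h1 : c j ≤ c (j + k) := hc (by omega)
  have h2 : c k ≤ c (j + k) := hc (by omega)
  have hj : (0 : ℝ) ≤ j := Nat.cast_nonneg j
  have hk : (0 : ℝ) ≤ k := Nat.cast_nonneg k
  nlinarith [mul_le_mul_of_nonneg_left h1 hj, mul_le_mul_of_nonneg_left h2 hk]

/-- the two data of `S_SA1` for a weight -/
structure Wd (w : ℕ → ℝ) (X : SA) : Prop where
  l : ∀ a : X.A, ∃ B : ℕ → ℝ, (∀ k t, ‖iteratedDeriv k (fun t => X.ev t a) t‖ ≤ B k) ∧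
      HasSum (fun k => w k / (k.factorial : ℝ) * B k) ‖a‖
  r : ∀ (f : ℝ → ℂ) (B : ℕ → ℝ), ContDiff ℝ ∞ f → (∀ k t, ‖iteratedDeriv k f t‖ ≤ B k) →
      Summable (fun k => w k / (k.factorial : ℝ) * B k) →
      ∃ a : X.A, (∀ t, X.ev t a = f t) ∧ ‖a‖ ≤ ∑' k, w k / (k.factorial : ℝ) * B k

theorem iter_add (f : ℝ → ℂ) (k : ℕ) :
    iteratedDeriv k (iteratedDeriv 2 f) = iteratedDeriv (k + 2) f := by
  rw [iteratedDeriv_eq_iterate, iteratedDeriv_eq_iterate, iteratedDeriv_eq_iterate,
    ← Function.iterate_add_apply]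

/-- the inclusion -/
theorem incl {w w' : ℕ → ℝ} {X Y : SA} (hX : Wd w X) (hY : Wd w' Y)
    (hw' : ∀ k, 0 < w' k) (hww : ∀ k, w' k ≤ w k) (a : X.A) :
    ∃ a' : Y.A, (∀ t, Y.ev t a' = X.ev t a) ∧ ‖a'‖ ≤ ‖a‖ := by
  obtain ⟨B, hB, hs⟩ := hX.l a
  have hB0 : ∀ k, 0 ≤ B k := fun k => (norm_nonneg _).trans (hB k 0)
  have hle : ∀ k, w' k / (k.factorial : ℝ) * B k ≤ w k / (k.factorial : ℝ) * B k := by
    intro k
    apply mul_le_mul_of_nonneg_right _ (hB0 k)
    exact div_le_div_of_nonneg_right (hww k) (by positivity)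
  have hsum : Summable (fun k => w' k / (k.factorial : ℝ) * B k) :=
    Summable.of_nonneg_of_le (fun k => mul_nonneg (div_nonneg (hw' k).le (by positivity)) (hB0 k))
      hle hs.summable
  obtain ⟨a', h1, h2⟩ := hY.r (fun t => X.ev t a) B (X.smooth a) hB hsum
  refine ⟨a', h1, h2.trans ?_⟩
  rw [← hs.tsum_eq]
  exact hsum.tsum_le_tsum hle hs.summable

/-- the second derivative -/
theorem dder {w w' : ℕ → ℝ} {X Y : SA} (hX : Wd w X) (hY : Wd w' Y) (C : ℝ) (hC : 0 ≤ C)
    (hw : ∀ k, 0 < w k) (hw' : ∀ k, 0 < w' k)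
    (hww : ∀ k : ℕ, w' k / (k.factorial : ℝ) ≤ C * (w (k + 2) / ((k + 2).factorial : ℝ)))
    (a : X.A) :
    ∃ a' : Y.A, (∀ t, Y.ev t a' = iteratedDeriv 2 (fun t => X.ev t a) t) ∧ ‖a'‖ ≤ C * ‖a‖ := by
  obtain ⟨B, hB, hs⟩ := hX.l a
  have hB0 : ∀ k, 0 ≤ B k := fun k => (norm_nonneg _).trans (hB k 0)
  have hle : ∀ k, w' k / (k.factorial : ℝ) * B (k + 2)
      ≤ C * (w (k + 2) / ((k + 2).factorial : ℝ) * B (k + 2)) := by
    intro k
    rw [← mul_assoc]
    exact mul_le_mul_of_nonneg_right (hww k) (hB0 _)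
  have hs2 : Summable (fun k => w (k + 2) / ((k + 2).factorial : ℝ) * B (k + 2)) :=
    (summable_nat_add_iff 2).2 hs.summable
  have hsum : Summable (fun k => w' k / (k.factorial : ℝ) * B (k + 2)) :=
    Summable.of_nonneg_of_le
      (fun k => mul_nonneg (div_nonneg (hw' k).le (by positivity)) (hB0 _)) hle
      (hs2.mul_left C)
  have hsm : ContDiff ℝ ∞ (iteratedDeriv 2 (fun t => X.ev t a)) := by
    rw [iteratedDeriv_eq_iterate]
    exact ContDiff.iterate_deriv 2 (X.smooth a)
  obtain ⟨a', h1, h2⟩ := hY.r (iteratedDeriv 2 (fun t => X.ev t a)) (fun k => B (k + 2)) hsm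
    (fun k t => by rw [iter_add]; exact hB (k + 2) t) hsum
  refine ⟨a', h1, h2.trans ?_⟩
  have h3 : ∑' k, w' k / (k.factorial : ℝ) * B (k + 2)
      ≤ ∑' k, C * (w (k + 2) / ((k + 2).factorial : ℝ) * B (k + 2)) :=
    hsum.tsum_le_tsum hle (hs2.mul_left C)
  refine h3.trans ?_
  rw [tsum_mul_left]
  apply mul_le_mul_of_nonneg_left _ hC
  have h4 := hs.summable.sum_add_tsum_nat_add 2
  rw [hs.tsum_eq] at h4
  rw [← h4]
  have h5 : 0 ≤ ∑ i ∈ Finset.range 2, w i / (i.factorial : ℝ) * B i :=
    Finset.sum_nonneg fun i _ => mul_nonneg (div_nonneg (hw i).le (by positivity)) (hB0 i)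
  linarith

theorem th (h : S_SA1) : S_SA := by
  intro n f hf
  choose hfs hfb using hf
  choose Cb hCb using hfb
  -- the common bound
  set B : ℕ → ℝ := fun k => 1 + ∑ i, |Cb i k| with hB
  have hB1 : ∀ k, 1 ≤ B k := by
    intro k
    have : 0 ≤ ∑ i, |Cb i k| := Finset.sum_nonneg fun i _ => abs_nonneg _
    simp only [hB]
    linarith
  have hBf : ∀ i k t, ‖iteratedDeriv k (f i) t‖ ≤ B k := by
    intro i k t
    have h1 : |Cb i k| ≤ ∑ i, |Cb i k| :=
      Finset.single_le_sum (f := fun i => |Cb i k|) (fun i _ => abs_nonneg _) (Finset.mem_univ i)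
    have h2 := hCb i k t
    have h3 := le_abs_self (Cb i k)
    simp only [hB]
    linarith
  have hlog : ∀ k, 0 ≤ Real.log (B k) := fun k => Real.log_nonneg (hB1 k)
  -- the exponents
  set c : ℕ → ℝ := fun k => ∑ j ∈ Finset.range (k + 1), (Real.log (B j) + 1) with hc
  have hcm : Monotone c := by
    apply monotone_nat_of_le_succ
    intro k
    simp only [hc]
    rw [Finset.sum_range_succ _ (k + 1)]
    have := hlog (k + 1)
    linarith
  have hcl : ∀ k, Real.log (B k) + 1 ≤ c k := by
    intro k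
    simp only [hc]
    rw [Finset.sum_range_succ]
    have : 0 ≤ ∑ j ∈ Finset.range k, (Real.log (B j) + 1) :=
      Finset.sum_nonneg fun i _ => by have := hlog i; linarith
    linarith
  have hc0 : ∀ k, 0 ≤ c k := fun k => by have := hcl k; have := hlog k; linarith
  set c' : ℕ → ℝ := fun k => 3 * c (k + 2) + 6 with hc'
  have hcm' : Monotone c' := by
    intro j k hjk
    have : c (j + 2) ≤ c (k + 2) := hcm (by omega)
    simp only [hc']
    linarith
  have hcc' : ∀ k, c k ≤ c' k := by
    intro k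
    have h1 : c k ≤ c (k + 2) := hcm (by omega)
    have h2 := hc0 (k + 2)
    simp only [hc']
    linarith
  obtain ⟨X, hX1, hX2⟩ := h (wt c) (wt_zero c) (wt_pos c) (wt_mul hcm)
  obtain ⟨Y, hY1, hY2⟩ := h (wt c') (wt_zero c') (wt_pos c') (wt_mul hcm')
  have hX : Wd (wt c) X := ⟨hX1, hX2⟩
  have hY : Wd (wt c') Y := ⟨hY1, hY2⟩
  have hww : ∀ k, wt c' k ≤ wt c k := by
    intro k
    unfold wt
    apply Real.exp_le_exp.2
    have hk : (0 : ℝ) ≤ k := Nat.cast_nonneg k
    nlinarith [mul_le_mul_of_nonneg_left (hcc' k) hk]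
  set C : ℝ := 1 + 2 / wt c 2 with hC
  have hC1 : 1 ≤ C := by
    have : 0 < 2 / wt c 2 := div_pos two_pos (wt_pos c 2)
    linarith
  have hww2 : ∀ k : ℕ, wt c' k / (k.factorial : ℝ)
      ≤ C * (wt c (k + 2) / ((k + 2).factorial : ℝ)) := by
    intro k
    have hfac : ((k + 2).factorial : ℝ) = (k + 2) * (k + 1) * (k.factorial : ℝ) := by
      rw [Nat.factorial_succ, Nat.factorial_succ]
      push_cast
      ring
    have hf0 : (0 : ℝ) < (k.factorial : ℝ) := by positivity
    have hk : (0 : ℝ) ≤ k := Nat.cast_nonneg k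
    have key : wt c' k * ((k + 2) * (k + 1)) ≤ C * wt c (k + 2) := by
      rcases Nat.eq_zero_or_pos k with h0 | h0
      · subst h0
        rw [wt_zero]
        have h1 : 2 / wt c 2 * wt c 2 = 2 := div_mul_cancel₀ _ (wt_pos c 2).ne'
        have h2 := wt_pos c 2
        have e : C * wt c 2 = wt c 2 + 2 := by rw [hC, add_mul, h1, one_mul]
        rw [show 0 + 2 = 2 from rfl, e]
        push_cast
        linarith
      · have hk1 : (1 : ℝ) ≤ k := by exact_mod_cast h0
        have h1 : (k : ℝ) + 1 ≤ Real.exp k := Real.add_one_le_exp _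
        have h2 : (k : ℝ) + 2 ≤ Real.exp (2 * k) := by
          have := Real.add_one_le_exp (2 * (k : ℝ))
          linarith
        have h3 : ((k : ℝ) + 2) * (k + 1) ≤ Real.exp (3 * k) := by
          calc ((k : ℝ) + 2) * (k + 1) ≤ Real.exp (2 * k) * Real.exp k :=
                mul_le_mul h2 h1 (by linarith) (Real.exp_pos _).le
            _ = Real.exp (3 * k) := by rw [← Real.exp_add]; congr 1; ring
        have h4 : wt c' k * Real.exp (3 * k) ≤ wt c (k + 2) := by
          unfold wt
          rw [← Real.exp_add]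
          apply Real.exp_le_exp.2
          simp only [hc']
          push_cast
          have := hc0 (k + 2)
          nlinarith
        calc wt c' k * ((k + 2) * (k + 1)) ≤ wt c' k * Real.exp (3 * k) :=
              mul_le_mul_of_nonneg_left h3 (wt_pos c' k).le
          _ ≤ 1 * wt c (k + 2) := by rw [one_mul]; exact h4
          _ ≤ C * wt c (k + 2) := mul_le_mul_of_nonneg_right hC1 (wt_pos c _).le
    rw [hfac, ← mul_div_assoc, div_le_div_iff₀ hf0 (by positivity)]
    calc wt c' k * ((k + 2) * (k + 1) * (k.factorial : ℝ))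
        = (wt c' k * ((k + 2) * (k + 1))) * (k.factorial : ℝ) := by ring
      _ ≤ (C * wt c (k + 2)) * (k.factorial : ℝ) := mul_le_mul_of_nonneg_right key hf0.le
  choose io hio1 hio2 using incl hX hY (wt_pos c') hww
  choose de hde1 hde2 using dder hX hY C (by linarith) (wt_pos c) (wt_pos c') hww2
  set ι : X.A →ₐ[ℂ] Y.A := AlgHom.ofLinearMap
    { toFun := io
      map_add' := fun a b => by
        apply Y.ext
        intro t
        rw [map_add, hio1, hio1, hio1, map_add]
      map_smul' := fun r a => by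
        apply Y.ext
        intro t
        rw [RingHom.id_apply, map_smul, hio1, hio1, map_smul] }
    (by
      apply Y.ext
      intro t
      show Y.ev t (io 1) = _
      rw [hio1, map_one, map_one])
    (fun a b => by
      apply Y.ext
      intro t
      show Y.ev t (io (a * b)) = Y.ev t (io a * io b)
      rw [map_mul, hio1, hio1, hio1, map_mul]) with hι
  have hca : ∀ (a : X.A) (t : ℝ), ContDiffAt ℝ ((2 : ℕ) : WithTop ℕ∞) (fun t => X.ev t a) t :=
    fun a t => (contDiff_infty.1 (X.smooth a) 2).contDiffAt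
  set Δ : X.A →L[ℂ] Y.A := LinearMap.mkContinuous
    { toFun := de
      map_add' := fun a b => by
        apply Y.ext
        intro t
        rw [map_add, hde1, hde1, hde1]
        rw [← iteratedDeriv_fun_add (hca a t) (hca b t)]
        congr 1
        funext s
        rw [map_add]
      map_smul' := fun r a => by
        apply Y.ext
        intro t
        rw [RingHom.id_apply, map_smul, hde1, hde1]
        rw [← iteratedDeriv_fun_const_smul (hca a t) r]
        congr 1
        funext s
        rw [map_smul] } C (fun a => hde2 a) with hΔ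
  refine ⟨X, Y, ι, Δ, fun a => hio2 a, fun t a => hio1 a t, fun t a => hde1 a t, ?_⟩
  intro i
  have hsum : Summable (fun k => wt c k / (k.factorial : ℝ) * B k) := by
    have hs1 : Summable (fun k : ℕ => B 0 * ((1 : ℝ) ^ k / (k.factorial : ℝ))) :=
      (Real.summable_pow_div_factorial 1).mul_left _
    refine Summable.of_nonneg_of_le (fun k => ?_) (fun k => ?_) hs1
    · exact mul_nonneg (div_nonneg (wt_pos c k).le (by positivity))
        (zero_le_one.trans (hB1 k))
    · have h1 : wt c k * B k ≤ B 0 := by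
        rcases Nat.eq_zero_or_pos k with h0 | h0
        · subst h0
          rw [wt_zero, one_mul]
        · have hk1 : (1 : ℝ) ≤ k := by exact_mod_cast h0
          have h2 : B k = Real.exp (Real.log (B k)) :=
            (Real.exp_log (lt_of_lt_of_le zero_lt_one (hB1 k))).symm
          have h3 : wt c k * B k ≤ 1 := by
            rw [h2]
            unfold wt
            rw [← Real.exp_add]
            apply Real.exp_le_one_iff.2
            have h4 := hcl k
            have h5 := hc0 k
            nlinarith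
          exact h3.trans (hB1 0)
      rw [one_pow, div_mul_eq_mul_div, mul_one_div]
      exact div_le_div_of_nonneg_right h1 (by positivity)
  obtain ⟨a, ha, -⟩ := hX2 (f i) B (hfs i) (hBf i) hsum
  exact ⟨a, ha⟩

end Pool.Agent.W216.UN.SA2
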